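import Pool.Agent.helper66.PX.Spec

/-! Project PX (MP_3938c6_al), row QU: the relative form of MA. -/

set_option autoImplicit false

open Polynomial

noncomputable section

namespace Pool.Agent.PX

universe u v w

/-- the two-sided ideal with carrier `W`. -/
def QU_ideal {K : Type u} {R : Type v} [Field K] [Ring R] [Algebra K R] (W : Submodule K R) (h : Two K R W) :
    Ideal R where
  carrier := W
  add_mem' := fun ha hb => W.add_mem ha hb
  zero_mem' := W.zero_mem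
  smul_mem' := fun a x hx => (h a x hx).1

theorem QU_mem {K : Type u} {R : Type v} [Field K] [Ring R] [Algebra K R] (W : Submodule K R) (h : Two K R W) (x : R) :
    x ∈ QU_ideal W h ↔ x ∈ W := Iff.rfl

theorem QU_twoSided {K : Type u} {R : Type v} [Field K] [Ring R] [Algebra K R] (W : Submodule K R) (h : Two K R W) :
    (QU_ideal W h).IsTwoSided :=
  ⟨fun {a} b ha => (h b a ha).2⟩

/-- **QU**. -/
theorem QU (hMA : MA_stmt.{u, v}) : QU_stmt.{u, v} := by
  intro K R _ _ _ _ n I W hI hW hWI hSem hMI hne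
  have : (QU_ideal W hW).IsTwoSided := QU_twoSided W hW
  let φ : R →ₐ[K] (R ⧸ QU_ideal W hW) := Ideal.Quotient.mkₐ K (QU_ideal W hW)
  have hφ0 : ∀ x : R, φ x = 0 ↔ x ∈ W := fun x => Ideal.Quotient.eq_zero_iff_mem
  have hsurj : Function.Surjective φ := Ideal.Quotient.mkₐ_surjective K (QU_ideal W hW)
  let I' : Submodule K (R ⧸ QU_ideal W hW) := I.map φ.toLinearMap
  have hI'mem : ∀ y, y ∈ I' ↔ ∃ x ∈ I, φ x = y := fun y => Submodule.mem_map
  have hTwo : Two K (R ⧸ QU_ideal W hW) I' := by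
    intro a y hy
    obtain ⟨x, hx, rfl⟩ := (hI'mem y).1 hy
    obtain ⟨b, rfl⟩ := hsurj a
    refine ⟨(hI'mem _).2 ⟨b * x, (hI b x hx).1, map_mul φ b x⟩, (hI'mem _).2 ⟨x * b, (hI b x hx).2, map_mul φ x b⟩⟩
  have hSem' : Sem K (R ⧸ QU_ideal W hW) I' ⊥ := by
    intro y hy hu
    obtain ⟨x, hx, rfl⟩ := (hI'mem y).1 hy
    have hxW : x ∈ W := by
      refine hSem x hx fun u hu' => ?_
      have h1 := hu (φ u) ((hI'mem _).2 ⟨u, hu', rfl⟩)
      rw [Submodule.mem_bot, ← map_mul, ← map_mul] at h1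
      exact (hφ0 _).1 h1
    exact (Submodule.mem_bot K).2 ((hφ0 x).2 hxW)
  have hMI' : MI K (R ⧸ QU_ideal W hW) I' ⊥ n := by
    obtain ⟨s, c, hs, hl, hw, hx⟩ := hMI
    refine ⟨s, c, hs, hl, hw, fun x' hx' => ?_⟩
    choose x hxI hxe using fun i => (hI'mem (x' i)).1 (hx' i)
    have h1 : EV c s x ∈ W := hx x hxI
    have h2 : EV c s x' = φ (EV c s x) := by
      rw [EV_map]
      exact congrArg (EV c s) (funext fun i => (hxe i).symm)
    rw [Submodule.mem_bot, h2]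
    exact (hφ0 _).2 h1
  have hne' : I' ≠ ⊥ := by
    intro h
    apply hne
    intro x hx
    have h1 : φ x ∈ I' := (hI'mem _).2 ⟨x, hx, rfl⟩
    rw [h, Submodule.mem_bot] at h1
    exact (hφ0 x).1 h1
  obtain ⟨z', hz', hz0, hcomm⟩ := hMA K (R ⧸ QU_ideal W hW) n I' hTwo hSem' hMI' hne'
  obtain ⟨z, hz, rfl⟩ := (hI'mem z').1 hz'
  refine ⟨z, hz, fun hzW => hz0 ((hφ0 z).2 hzW), fun a ha => ?_⟩
  have h1 := hcomm (φ a) ((hI'mem _).2 ⟨a, ha, rfl⟩)
  rw [← hφ0, map_sub, map_mul, map_mul, h1, sub_self]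

end Pool.Agent.PX
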