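import Pool.Agent.helper93.PX.Spec

/-!
# Row RP (MP_2b41e9_nt): products and members of a block
-/

set_option autoImplicit false

namespace Pool.Agent.PX

open Polynomial

theorem RP_tail {x y : ℝ} {l : List ℝ} (h : Dec (x :: y :: l)) : Dec (y :: l) := by
  obtain ⟨h1, h2, h3⟩ := h
  refine ⟨(List.isChain_cons_cons.1 h1).2, by simp, ?_⟩
  rw [List.getLast_cons (by simp)] at h3
  exact h3

theorem RP_pos (l : List ℝ) : ∀ x : ℝ, Dec (x :: l) → 0 < x := by
  induction l with
  | nil =>
    rintro x ⟨-, h2, h3⟩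
    have h4 : x = 1 := h3
    rw [h4]
    exact one_pos
  | cons y l ih =>
    intro x h
    have h1 := ih y (RP_tail h)
    have h2 := (List.isChain_cons_cons.1 h.1).1
    linarith

theorem RP_ratios (l : List ℝ) : ∀ x : ℝ, Dec (x :: l) →
    (ratios (x :: l)).prod = x ∧ (∀ a ∈ ratios (x :: l), 1 < a) ∧
    ∀ K : IntermediateField ℚ ℝ, x ∈ K → (∀ z ∈ l, z ∈ K) → ∀ a ∈ ratios (x :: l), a ∈ K := by
  induction l with
  | nil =>
    rintro x ⟨-, h2, h3⟩
    have h4 : x = 1 := h3
    refine ⟨?_, ?_, ?_⟩
    · rw [h4]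
      rfl
    · intro a ha
      exact absurd ha (List.not_mem_nil)
    · intro K _ _ a ha
      exact absurd ha (List.not_mem_nil)
  | cons y l ih =>
    intro x h
    have hy := RP_tail h
    have hy0 := RP_pos l y hy
    obtain ⟨i1, i2, i3⟩ := ih y hy
    have hxy := (List.isChain_cons_cons.1 h.1).1
    have hr : ratios (x :: y :: l) = (x / y) :: ratios (y :: l) := rfl
    refine ⟨?_, ?_, ?_⟩
    · rw [hr, List.prod_cons, i1, div_mul_cancel₀ x hy0.ne']
    · intro a ha
      rw [hr] at ha
      rcases List.mem_cons.1 ha with rfl | ha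
      · rw [lt_div_iff₀ hy0, one_mul]
        exact hxy
      · exact i2 a ha
    · intro K hx hl a ha
      rw [hr] at ha
      rcases List.mem_cons.1 ha with rfl | ha
      · exact div_mem hx (hl y (by simp))
      · exact i3 K (hl y (by simp)) (fun z hz => hl z (by simp [hz])) a ha

theorem RP_drop (l : List ℝ) : ∀ k : ℕ, k < (ratios l).length → ∃ (x y : ℝ) (T' : List ℝ),
    (x :: y :: T') <:+ l ∧ (ratios l).drop k = ratios (x :: y :: T') := by
  induction l with
  | nil =>
    intro k hk
    exact absurd hk (Nat.not_lt_zero k)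
  | cons x l ih =>
    cases l with
    | nil =>
      intro k hk
      exact absurd hk (Nat.not_lt_zero k)
    | cons y l =>
      intro k hk
      have hr : ratios (x :: y :: l) = (x / y) :: ratios (y :: l) := rfl
      rcases k with _ | k
      · exact ⟨x, y, l, List.suffix_rfl, rfl⟩
      · rw [hr, List.length_cons] at hk
        obtain ⟨x', y', T', h1, h2⟩ := ih k (by omega)
        refine ⟨x', y', T', h1.trans (List.suffix_cons _ _), ?_⟩
        rw [hr, List.drop_succ_cons, h2]

theorem RP : RP_stmt := by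
  intro T b c h
  have hc := RP_pos T c h
  obtain ⟨h1, h2, h3⟩ := RP_ratios T c h
  refine ⟨?_, h1, h2, h3, ?_⟩
  · unfold blk
    rw [List.prod_cons, h1, div_mul_cancel₀ b hc.ne']
  · intro k hk hk2
    obtain ⟨k, rfl⟩ : ∃ k', k = k' + 1 := ⟨k - 1, by omega⟩
    unfold blk at hk2 ⊢
    rw [List.length_cons] at hk2
    rw [List.drop_succ_cons]
    exact RP_drop (c :: T) k (by omega)

end Pool.Agent.PX
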